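import Pool.Agent.V11329.TW.Law
import Pool.Agent.V11329.KO.Asm

/-!
# The rank part of the Birch and Swinnerton-Dyer conjecture over fields of degree `2 * 3 ^ k`

`E : y² + y = x³`, `K = ℚ(ω)`, `k ≥ 2`.  Let `π 1, …, π m` be primes of `ℤ[ω]`, congruent to `1` modulo `3`,
whose norms are distinct prime numbers congruent to `1` modulo `3 ^ (k + 1)`, and let `lam j` be a
character of exact order `3 ^ k` modulo `π j`.  The characters `lam j ^ 3 ^ (k - 1)` are the powers with
exponents `e j` of the cubic residue symbols, and `D = ∏ π j ^ e j` must not be `1` modulo `9`.  The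
character `χ = ∏ lam j` cuts out a cyclic extension `F / K` of degree `3 ^ k`, which contains the cubic
extension `K(D^{1/3})`.  We have `L(E / F, s) = ∏ L(ψ χ^t, s) L(ψ' χ'^t, s)`, the product over the
`t < 3 ^ k`, where `ψ` is the Hecke character of `E`, and `L(ψ' χ'^t, s)` is the complex conjugate of
`L(ψ χ^t, s)` at the complex conjugate of `s`.

`RankZero`: `L(E / F, s)` is entire and does not vanish at `s = 1`, and `E(F)` is finite.  So the conjecture
of Birch and Swinnerton-Dyer on the rank holds for `E` over `F` and over all fields between `K` and `F`.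

The members of the family are ordered by `N(π 1 ⋯ π m)`.  There are
`≍ X (log log X) ^ (m - 1) / log X` of them up to `X`; the proportion of the connected ones tends to
`∏_{i < m / 2} (1 - 3 ^ (-2 i - 1))`; and `RankZero` holds for all the connected members, hence for at
least this proportion, which is larger than `0.639`, of the members.  The same holds if the `π j` are
taken from any dense set.

The family and the theorem on the twists of `E` by the characters of order `3 ^ l`, `l ≥ 2`, are in
`ThreePartTwistsProportion` of problem `MP_dfae13_nt` (helper291), which uses `ThreePartTwists` of the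
same problem.  New are the cubic twists by these `D` (`Pool.Agent.V11329.KO`: the values
`L(ψ χ^t, 1)` for the characters of order three, and a descent that shows that the points over
`K(D^{1/3})` are torsion) and the descent from `F` to `K(D^{1/3})` (`Pool.Agent.V11329.TW`).
-/

set_option autoImplicit false

open scoped Classical
open Filter Topology Pool.Agent.Y715.T.St

namespace Pool.Agent.Results.MP_f50388_nt.CyclicThreePowerRanks

open Pool.Agent.Results.MP_dfae13_nt.ThreePartTwistsProportion (Datum InFamily IsConnected count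
  IsDense)

/-- The action of `σ` on the points of `E`. -/
noncomputable def galois {i₀ : QBar} (σ : GalK i₀) (P : Pts QBar) : Pts QBar :=
  WeierstrassCurve.Affine.Point.map (W' := E.toAffine) (homK σ) P

/-- The group `E(F)`, where `F` is the extension of `K` that is cut out by `a`: the points that are
fixed by the kernel of `a`. -/
def pointsF {k : ℕ} {i₀ : QBar} (a : GalK i₀ → ZMod (3 ^ k)) : Set (Pts QBar) :=
  {P | ∀ σ, a σ = 0 → galois σ P = P}

/-- The product over the `t < 3 ^ k` of `F t (s)` and of its complex conjugate `conj (F t (conj s))`.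
If `F t` is the `L`-function of `ψ χ ^ t` for all these `t`, this is the `L`-function of `E` over the
extension of `K` that corresponds to `χ`. -/
noncomputable def LF (k : ℕ) (F : ℕ → ℂ → ℂ) (s : ℂ) : ℂ :=
  ∏ t ∈ Finset.range (3 ^ k), F t s * (starRingEnd ℂ) (F t ((starRingEnd ℂ) s))

/-- The `L`-functions of the Hecke characters `ψ χ ^ t`, `t < 3 ^ k`, are entire, so is their product
`L(E / F, s)`, which is not zero at `s = 1`; and `E(F)` is finite. -/
def RankZero (k : ℕ) {m : ℕ} (x : Datum m) : Prop :=
  (∃ F : ℕ → ℂ → ℂ, (∀ t < 3 ^ k, IsLFunction x.2 t (F t)) ∧ Differentiable ℂ (LF k F) ∧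
    LF k F 1 ≠ 0) ∧
  ∀ ζ : ℂ, ζ ^ 3 ^ (k - 1) = omega → ∀ (i₀ : QBar), i₀ ^ 2 + i₀ + 1 = 0 →
    ∀ a : GalK i₀ → ZMod (3 ^ k), Corresponds ζ x.2 a → (pointsF a).Finite

lemma differentiable_LF (k : ℕ) {F : ℕ → ℂ → ℂ} (h : ∀ t < 3 ^ k, Differentiable ℂ (F t)) :
    Differentiable ℂ (LF k F) := by
  have h1 : ∀ t ∈ Finset.range (3 ^ k), Differentiable ℂ
      (fun s => F t s * (starRingEnd ℂ) (F t ((starRingEnd ℂ) s))) := by
    intro t ht
    have h3 : t < 3 ^ k := Finset.mem_range.1 ht
    intro s
    have h4 : DifferentiableAt ℂ (F t) ((starRingEnd ℂ) s) := h t h3 _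
    have h5 := h4.conj_conj
    rw [RCLike.conj_conj] at h5
    exact (h t h3 s).mul h5
  have e : LF k F = fun s => ∏ t ∈ Finset.range (3 ^ k),
      F t s * (starRingEnd ℂ) (F t ((starRingEnd ℂ) s)) := rfl
  rw [e]
  exact Differentiable.fun_finsetProd h1

lemma rankZero_of {k m : ℕ} (hk : 2 ≤ k) (hm : 1 ≤ m) {x : Datum m} (h1 : InFamily Set.univ k x)
    (h2 : IsConnected k x) : RankZero k x := by
  have hfam := fun (l : ℕ) (hl : 2 ≤ l) =>
    (Pool.Agent.Results.MP_dfae13_nt.ThreePartTwistsProportion.result l m hl hm).1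
  constructor
  · have h3 : ∀ t : ℕ, ∃ F : ℂ → ℂ, t < 3 ^ k → IsLFunction x.2 t F ∧ F 1 ≠ 0 := by
      intro t
      by_cases ht : t < 3 ^ k
      · obtain ⟨F, hF⟩ := Pool.Agent.V11329.KO.lall hk hfam h1 h2 ht
        exact ⟨F, fun _ => hF⟩
      · exact ⟨0, fun h => absurd h ht⟩
    choose F hF using h3
    refine ⟨F, fun t ht => (hF t ht).1, differentiable_LF k fun t ht => (hF t ht).1.1, ?_⟩
    unfold LF
    refine Finset.prod_ne_zero_iff.2 fun t ht => ?_
    have h4 := (hF t (Finset.mem_range.1 ht)).2
    rw [map_one]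
    exact mul_ne_zero h4 ((map_ne_zero _).2 h4)
  · intro ζ hζ i₀ hi a ha
    exact Pool.Agent.V11329.KO.efk_finite hk hm hfam h1 h2 hζ hi ha

/-- **The number of the members, the proportion of the connected ones, and the ranks and orders for
them.** -/
theorem result (k m : ℕ) (hk : 2 ≤ k) (hm : 1 ≤ m) :
    -- the connected members
    (∀ x : Datum m, InFamily Set.univ k x → IsConnected k x → RankZero k x) ∧
    -- the set of all primes is dense
    IsDense k Set.univ ∧
    ∀ S : Set Eis, IsDense k S →
      -- the number of the members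
      (∃ (c C : ℝ) (X₀ : ℕ), 0 < c ∧ 0 < C ∧ ∀ X : ℕ, X₀ ≤ X →
        c * (X * Real.log (Real.log X) ^ (m - 1) / Real.log X) ≤
          (count (m := m) (InFamily S k) X : ℝ) ∧
        (count (m := m) (InFamily S k) X : ℝ) ≤
          C * (X * Real.log (Real.log X) ^ (m - 1) / Real.log X)) ∧
      -- the proportion of the connected ones
      Tendsto (fun X : ℕ => (count (m := m) (fun x => InFamily S k x ∧ IsConnected k x) X : ℝ) /
        (count (m := m) (InFamily S k) X : ℝ)) atTop
        (𝓝 (∏ i ∈ Finset.range (m / 2), (1 - 1 / 3 ^ (2 * i + 1) : ℝ))) ∧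
      -- the proportion of the members with `RankZero` is at least this
      ∀ ε : ℝ, 0 < ε → ∃ X₀ : ℕ, ∀ X : ℕ, X₀ ≤ X →
        (∏ i ∈ Finset.range (m / 2), (1 - 1 / 3 ^ (2 * i + 1) : ℝ) - ε) *
          (count (m := m) (InFamily S k) X : ℝ) ≤
          (count (m := m) (fun x => InFamily S k x ∧ RankZero k x) X : ℝ) :=
  Pool.Agent.V11329.TW.law k m hk hm (RankZero k) fun _ h1 h2 => rankZero_of hk hm h1 h2

end Pool.Agent.Results.MP_f50388_nt.CyclicThreePowerRanks
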