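import Mathlib
import Pool.Agent.V11291.EK.Ex
import Pool.Agent.Y696.XL.Up

/-!
# The rank part of the refined conjecture over the sextic fields `K(D^(1/3))`, `K = ℚ(√-3)`, for the
# products `D` of a fixed number of primes from an arbitrary set of primes of positive density

`K` is the field of third roots of unity, `E` is the curve `y² + y = x³` over `ℚ`, and `E_D` is the curve
`y² + D y = x³` over `K`.  We fix a number `m` and an arbitrary set `S` of prime ideals of `𝓞 K`.  The
family consists of the `D = 1` modulo `3` in `𝓞 K` whose norm is squarefree and not `1` modulo `9`, with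
exactly `m` prime factors, all of them in `S`.  The number fields of the problem are the fields
`F = K(θ)`, `θ³ = D`, of degree `6` over `ℚ`.

`D` is good if `E_D(K)` is finite, `Ш(E_D/K)[3^∞] = 0`, and over all these `F` the function `L(E/F, s)` has
an entire continuation with `L(E/F, 1) ≠ 0`, the group `E(F)` is finite (of order `9` if `D ≠ -2`), and `3`
kills the `3`-primary part of `Ш(E/F)`.

* (library) For each `D` of the family there is such an `F`, `L(E/F, s)` is entire for all these `F`, and `D`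
  is good if and only if `E_D(K)` is finite and `Ш(E_D/K)[3^∞] = 0`, if and only if the kernel of the
  Laplacian of the matrix of the cubic residue symbols of the prime factors of `D` consists of the
  constants.
* (new here) Suppose that `m` residue classes modulo `9`, which are `1` modulo `3`, with a product that is
  not `1` modulo `9`, contain each the norms of many primes in `S` (at least a positive proportion of the
  primes up to `Y`, for all large `Y`).  Then the number of the `D` of norm at most `X` in the family has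
  the order of magnitude `X (log log X)^(m - 1) / log X`, and the proportion of the good ones among them
  tends to the rational number `∏_{i < m / 2} (1 - 3^{-(2 i + 1)})`: `1, 2/3, 2/3, 52/81, 52/81, …` for
  `m = 1, 2, 3, 4, 5, …`.
* The condition on `S` holds for the primes with norms in a residue class modulo any number prime to `3`.

For `m = 1` almost all the `D` are good: for almost all the primes `π` in a set of primes of positive
density the conjecture on the order of vanishing holds for `E` over `K(π^(1/3))`.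
-/

set_option autoImplicit false

namespace Pool.Agent.Results.MP_f50388_nt.FixedNumberSexticFields

open NumberField IsDedekindDomain WeierstrassCurve Filter Topology Finset
open Pool.Agent.TH841.NF.D (Sha)
open scoped Classical

/-- The curve `E_D : y² + D y = x³`; `E` is the curve `E_1`. -/
def curve {F : Type} [Field F] (D : F) : WeierstrassCurve F := ⟨0, 0, D, 0, 0⟩

/-- There is an entire function equal to `L(E / F, s)` for `Re s > 3 / 2`. -/
def HasEntireL (F : Type) [Field F] [NumberField F] : Prop :=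
  ∃ Lf : ℂ → ℂ, Differentiable ℂ Lf ∧
    ∀ s : ℂ, 3 / 2 < s.re →
      LSeriesSummable ((fun n : ℤ => (n : ℂ)) ∘ (curve (1 : F)).LFunction) s ∧
        Lf s = (curve (1 : F)).LSeries s

/-- There is an entire function equal to `L(E / F, s)` for `Re s > 3 / 2`, its value at `1` is not
zero, `E(F)` is finite (so both the analytic rank and the rank are `0`), and every element of the
`3`-primary part of `Ш(E / F)` is killed by `3`. -/
def RankZero (F : Type) [Field F] [NumberField F] : Prop :=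
  (∃ Lf : ℂ → ℂ, Differentiable ℂ Lf ∧
    (∀ s : ℂ, 3 / 2 < s.re →
      LSeriesSummable ((fun n : ℤ => (n : ℂ)) ∘ (curve (1 : F)).LFunction) s ∧
        Lf s = (curve (1 : F)).LSeries s) ∧ Lf 1 ≠ 0) ∧
  Finite (curve (1 : F)).toAffine.Point ∧
  ∀ (n : ℕ) (x : Sha (curve (1 : F))), 3 ^ n • x = 0 → 3 • x = 0

variable {K : Type} [Field K] [NumberField K]

/-- `E_D(K)` is finite and the `3`-primary part of `Ш(E_D / K)` is trivial. -/
def FiniteAndTrivial (D : 𝓞 K) : Prop :=
  Finite (curve (D : K)).toAffine.Point ∧ ∀ (n : ℕ) (x : Sha (curve (D : K))), 3 ^ n • x = 0 → x = 0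

/-- `E_D(K)` is finite, `Ш(E_D / K)[3^∞] = 0`, and over all the extensions `F = K(θ)`, `θ³ = D`, of degree
three the value `L(E / F, 1)` is not zero, `E(F)` is finite, of order `9` if `D ≠ -2`, and `3` kills the
`3`-primary part of `Ш(E / F)`. -/
def Good (D : 𝓞 K) : Prop :=
  FiniteAndTrivial D ∧ ∀ (F : Type) [Field F] [NumberField F] [Algebra K F] (θ : F),
    Module.finrank K F = 3 → θ ^ 3 = algebraMap K F D →
      RankZero F ∧ (D ≠ -2 → Nat.card (curve (1 : F)).toAffine.Point = 9)

/-- `D` is the product of the primes `π i`, which are `1` modulo `3`, and the cubic residue symbol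
of `π i` modulo `π j` is `ω ^ χ j i`. -/
def IsFactorization (ω D : 𝓞 K) (n : ℕ) (π : Fin n → 𝓞 K) (χ : Fin n → Fin n → ZMod 3) : Prop :=
  (∀ i, Prime (π i) ∧ (3 : 𝓞 K) ∣ π i - 1) ∧ D = ∏ i, π i ∧
  ∀ i j, i ≠ j →
    π j ∣ π i ^ (((Algebra.norm ℤ (π j)).natAbs - 1) / 3) - ω ^ (χ j i).val

/-- The kernel of the Laplacian of `χ` over the field with three elements consists of the
constants. -/
def IsConnected {n : ℕ} (χ : Fin n → Fin n → ZMod 3) : Prop :=
  ∀ v : Fin n → ZMod 3, (∀ j, ∑ i, χ j i * (v i - v j) = 0) → ∀ i j, v i = v j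

/-- The statement on one `D`: there is a cubic extension of `K` with a cube root of `D`; the `L`-series of
`E` over all these extensions is entire; `D` has a factorization; `D` is good if and only if `E_D(K)` is
finite and `Ш(E_D / K)[3^∞] = 0`, and if and only if the matrix of the cubic residue symbols of its prime
factors is connected. -/
def Law (D : 𝓞 K) : Prop :=
  (∃ (F : Type) (_ : Field F) (_ : NumberField F) (_ : Algebra K F) (θ : F),
    Module.finrank K F = 3 ∧ θ ^ 3 = algebraMap K F D) ∧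
  (∀ (F : Type) [Field F] [NumberField F] [Algebra K F] (θ : F),
    Module.finrank K F = 3 → θ ^ 3 = algebraMap K F D → HasEntireL F) ∧
  (Good D ↔ FiniteAndTrivial D) ∧
  (∃ (ω : 𝓞 K) (n : ℕ) (π : Fin n → 𝓞 K) (χ : Fin n → Fin n → ZMod 3),
    ω ^ 2 + ω + 1 = 0 ∧ IsFactorization ω D n π χ) ∧
  ∀ (ω : 𝓞 K) (n : ℕ) (π : Fin n → 𝓞 K) (χ : Fin n → Fin n → ZMod 3),
    ω ^ 2 + ω + 1 = 0 → IsFactorization ω D n π χ → (Good D ↔ IsConnected χ)

/-- The family: `D = 1` modulo `3`, the norm of `D` is squarefree, not `1` modulo `9`, and has exactly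
`m` prime factors, and all the prime ideals that contain `D` are in `S`. -/
def InFamily (S : Set (Ideal (𝓞 K))) (m : ℕ) (D : 𝓞 K) : Prop :=
  (3 : 𝓞 K) ∣ D - 1 ∧ ¬ (9 : ℤ) ∣ Algebra.norm ℤ D - 1 ∧ Squarefree (Algebra.norm ℤ D) ∧
    (Algebra.norm ℤ D).natAbs.primeFactors.card = m ∧
    ∀ P : Ideal (𝓞 K), P.IsPrime → D ∈ P → P ∈ S

/-- At least a positive proportion of the primes up to `Y` is `r` modulo `9` and the norm of an ideal
in `S`, for all large `Y`. -/
def Dense (S : Set (Ideal (𝓞 K))) (r : ℕ) : Prop := ∃ (δ : ℝ) (Y₀ : ℕ), 0 < δ ∧ ∀ Y : ℕ, Y₀ ≤ Y →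
  δ * (Y / Real.log Y) ≤
    (Nat.card {p : ℕ // p ≤ Y ∧ p.Prime ∧ p % 9 = r ∧ ∃ P ∈ S, Ideal.absNorm P = p} : ℝ)

/-- The condition on `S`: there are `m` residue classes modulo `9`, all `1` modulo `3`, with a product
that is not `1` modulo `9`, each of which contains the norms of many primes in `S`. -/
def IsRich (S : Set (Ideal (𝓞 K))) (m : ℕ) : Prop :=
  ∃ r : Fin m → ℕ, (∏ i, r i) % 9 ≠ 1 ∧ ∀ i, r i % 3 = 1 ∧ Dense S (r i)

/-- The number of the `D` in the family of norm at most `X` with the property `Q`. -/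
noncomputable def count (S : Set (Ideal (𝓞 K))) (m : ℕ) (Q : 𝓞 K → Prop) (X : ℕ) : ℕ :=
  {D : 𝓞 K | Algebra.norm ℤ D ≤ X ∧ InFamily S m D ∧ Q D}.ncard

lemma sqf_of_norm (D : 𝓞 K) (h : Squarefree (Algebra.norm ℤ D)) : Squarefree D := by
  intro x hx
  have h1 : Algebra.norm ℤ x * Algebra.norm ℤ x ∣ Algebra.norm ℤ D := by
    rw [← map_mul]
    exact map_dvd (Algebra.norm ℤ) hx
  have h2 := h _ h1
  rw [Int.isUnit_iff_natAbs_eq, ← Ideal.absNorm_span_singleton, Ideal.absNorm_eq_one_iff,
    Ideal.span_singleton_eq_top] at h2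
  exact h2

lemma fam_iff (S : Set (Ideal (𝓞 K))) (m : ℕ) (D : 𝓞 K) :
    InFamily S m D ↔ Pool.Agent.V11291.EK.FamK S m D := by
  unfold InFamily Pool.Agent.V11291.EK.FamK Pool.Agent.Y696.CTK.ClsK
  constructor
  · rintro ⟨h1, h2, h3, h4, h5⟩
    exact ⟨⟨h1, sqf_of_norm D h3, h2⟩, h3, h4, h5⟩
  · rintro ⟨⟨h1, -, h2⟩, h3, h4, h5⟩
    exact ⟨h1, h2, h3, h4, h5⟩

lemma dense_iff (S : Set (Ideal (𝓞 K))) (r : ℕ) : Dense S r ↔
    Pool.Agent.V11291.FK.Dn fun p => p.Prime ∧ p % 9 = r ∧ ∃ P ∈ S, Ideal.absNorm P = p := by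
  have e : ∀ Y : ℕ, Nat.card {p : ℕ // p ≤ Y ∧ p.Prime ∧ p % 9 = r ∧ ∃ P ∈ S, Ideal.absNorm P = p} =
      ((range (Y + 1)).filter fun p => p.Prime ∧ p % 9 = r ∧
        ∃ P ∈ S, Ideal.absNorm P = p).card := by
    intro Y
    rw [← Nat.subtype_card]
    intro p
    rw [mem_filter, mem_range, Nat.lt_succ_iff]
  unfold Dense Pool.Agent.V11291.FK.Dn
  constructor
  · rintro ⟨δ, Y₀, hδ, h⟩
    refine ⟨δ, Y₀, hδ, fun Y hY => (h Y hY).trans (le_of_eq ?_)⟩
    rw [e Y]
    congr 2
    ext p
    simp only [mem_filter]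
  · rintro ⟨δ, Y₀, hδ, h⟩
    refine ⟨δ, Y₀, hδ, fun Y hY => (h Y hY).trans (le_of_eq ?_)⟩
    rw [e Y]
    congr 2
    ext p
    simp only [mem_filter]

lemma rich_iff (S : Set (Ideal (𝓞 K))) (m : ℕ) : IsRich S m ↔ Pool.Agent.V11291.EK.Rich S m := by
  unfold IsRich Pool.Agent.V11291.EK.Rich
  simp only [dense_iff]

section law
variable [IsCyclotomicExtension {3} ℚ K]

/-- the criterion of the library: `FiniteAndTrivial D` and the connectedness -/
lemma triv_iff {D : 𝓞 K} (hD : Pool.Agent.Y696.CTK.ClsK D) {ω : 𝓞 K} {n : ℕ} {π : Fin n → 𝓞 K}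
    {χ : Fin n → Fin n → ZMod 3} (hω : ω ^ 2 + ω + 1 = 0) (h : IsFactorization ω D n π χ) :
    FiniteAndTrivial D ↔ IsConnected χ :=
  ((Pool.Agent.XL6.finalTP K).2.1 D hD).2.2 ω n π χ hω h

lemma exists_fact {D : 𝓞 K} (hD : Pool.Agent.Y696.CTK.ClsK D) :
    ∃ (ω : 𝓞 K) (n : ℕ) (π : Fin n → 𝓞 K) (χ : Fin n → Fin n → ZMod 3),
      ω ^ 2 + ω + 1 = 0 ∧ IsFactorization ω D n π χ :=
  ((Pool.Agent.XL6.finalCE K).2.1 D hD).2.1

lemma good_iff {D : 𝓞 K} (hD : Pool.Agent.Y696.CTK.ClsK D) : Good D ↔ FiniteAndTrivial D := by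
  constructor
  · exact fun h => h.1
  · intro h
    refine ⟨h, fun F _ _ _ θ hd hθ => ?_⟩
    obtain ⟨ω, n, π, χ, hω, hf⟩ := exists_fact hD
    exact (((Pool.Agent.XL6.finalCE K).2.1 D hD).2.2 F θ hd hθ).2 ω n π χ hω hf
      ((triv_iff hD hω hf).1 h)

lemma law_of_class {D : 𝓞 K} (hD : Pool.Agent.Y696.CTK.ClsK D) : Law D := by
  obtain ⟨h1, -, h3⟩ := (Pool.Agent.XL6.finalCE K).2.1 D hD
  refine ⟨h1, fun F _ _ _ θ hd hθ => (h3 F θ hd hθ).1, good_iff hD, exists_fact hD,
    fun ω n π χ hω hf => ?_⟩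
  rw [good_iff hD]
  exact triv_iff hD hω hf

end law

/-- **Main theorem.**
(1) Let `m ≥ 1` and let `S` be a set of prime ideals which satisfies the condition `IsRich`.  Then the
number of the `D` of norm at most `X` in the family is between two positive constants times
`X (log log X)^(m - 1) / log X`, and the proportion of the good ones among them tends to
`∏_{i < m / 2} (1 - 3^{-(2 i + 1)})`.
(2) The law for each `D` of the family.
(3) The condition holds for the prime ideals with norm `c` modulo `q`, `q` prime to `3` and to `c`. -/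
theorem result (K : Type) [Field K] [NumberField K] [IsCyclotomicExtension {3} ℚ K] :
    (∀ (S : Set (Ideal (𝓞 K))) (m : ℕ), 1 ≤ m → IsRich S m →
      (∃ (c C : ℝ) (X₀ : ℕ), 0 < c ∧ 0 < C ∧ ∀ X : ℕ, X₀ ≤ X →
        c * (X * Real.log (Real.log X) ^ (m - 1) / Real.log X) ≤
          (count S m (fun _ => True) X : ℝ) ∧
        (count S m (fun _ => True) X : ℝ) ≤
          C * (X * Real.log (Real.log X) ^ (m - 1) / Real.log X)) ∧
      Tendsto (fun X : ℕ => (count S m Good X : ℝ) /
        (count S m (fun _ => True) X : ℝ)) atTop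
        (𝓝 (∏ i ∈ range (m / 2), (1 - (1 / 3 : ℝ) ^ (2 * i + 1))))) ∧
    (∀ (S : Set (Ideal (𝓞 K))) (m : ℕ) (D : 𝓞 K), InFamily S m D → Law D) ∧
    (∀ (q c m : ℕ), Nat.Coprime q 3 → Nat.Coprime c q → 1 ≤ m →
      IsRich {P : Ideal (𝓞 K) | Ideal.absNorm P % q = c % q} m) := by
  have e1 : ∀ (S : Set (Ideal (𝓞 K))) (m X : ℕ), count S m (fun _ => True) X =
      {D : 𝓞 K | Algebra.norm ℤ D ≤ X ∧ Pool.Agent.V11291.EK.FamK S m D}.ncard := by
    intro S m X
    unfold count
    simp only [fam_iff, and_true]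
  have e2 : ∀ (S : Set (Ideal (𝓞 K))) (m X : ℕ), count S m Good X =
      {D : 𝓞 K | Algebra.norm ℤ D ≤ X ∧ Pool.Agent.V11291.EK.FamK S m D ∧
        Pool.Agent.Y696.CTK.Tri D}.ncard := by
    intro S m X
    unfold count
    congr 1
    ext D
    rw [Set.mem_ofPred_eq, Set.mem_ofPred_eq, fam_iff]
    refine and_congr_right fun _ => and_congr_right fun h => ?_
    exact good_iff h.1
  refine ⟨fun S m hm hS => ⟨?_, ?_⟩, fun S m D hD => ?_, fun q c m hq hc hm => ?_⟩
  · obtain ⟨c, C, X₀, hc, hC, h⟩ := Pool.Agent.V11291.EK.K_size hm ((rich_iff S m).1 hS)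
    refine ⟨c, C, X₀, hc, hC, fun X hX => ?_⟩
    rw [e1]
    exact h X hX
  · refine (Pool.Agent.V11291.EK.K_law hm ((rich_iff S m).1 hS)).congr fun X => ?_
    rw [e1, e2]
  · exact law_of_class ((fam_iff S m D).1 hD).1
  · exact (rich_iff _ m).2 (Pool.Agent.V11291.EK.rich_classK hq hc hm)

end Pool.Agent.Results.MP_f50388_nt.FixedNumberSexticFields
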