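import Pool.Agent.V1137.SpT
import Pool.Agent.Results.MP_f50388_nt.LayersMultiquadraticLaw

/-!
# `X_0(14)` over infinite towers of fields generated by the square roots of the terms of a sparse sequence

Let `c > 1` be a real number. For all real `α > 0` outside a set of Hausdorff dimension smaller than one the
following holds for the integers `± ⌊α n ^ c⌋`.  At least `b N (log N)^(-3/4)` of the `D_n = s ⌊α n ^ c⌋`,
`n ≤ N`, `s = 1` or `s = -1`, are in the class of `LayersMultiquadraticLaw`. For every good set `S` the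
proportion of the `D_n` such that `S ∪ {D_n}` is a good set with `#S + 1` elements, among those in the class, is
exactly `c₀^(2^#S)`, `c₀ = ∏_{i ≥ 0} (1 - 2^{-(2 i + 1)})`.  So each good set `S`, for example the empty set, is
the beginning of an infinite chain of good sets all of whose new elements are terms `± ⌊α n ^ c⌋` with
prescribed signs and increasing `n`: in the tower of the fields `K(√d : d ∈ S ∪ {d_0, …, d_{m-1}})`,
`m ≥ 0`, `K` a layer of the cyclotomic `ℤ₃`-extension of `ℚ`, the rank of `X_0(14)` is zero, the central value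
is not zero, and `Ш[2^∞]` is finite.
-/

set_option autoImplicit false

open Filter Topology

namespace Pool.Agent.Results.MP_f50388_nt.SparseTowers

open LayersMultiquadraticLaw (Adm Good AllLayers cc)

/-- the numbers `s ⌊α n ^ c⌋` -/
noncomputable def term (s : ℤ) (α c : ℝ) (n : ℕ) : ℤ := s * (⌊α * (n : ℝ) ^ c⌋₊ : ℕ)

/-- the number of the `1 ≤ n ≤ N` for which `D = s ⌊α n ^ c⌋` is in the class `Adm` and has the property `Q` -/
noncomputable def count (s : ℤ) (α c : ℝ) (Q : ℤ → Prop) (N : ℕ) : ℕ :=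
  Nat.card {n : ℕ // (1 ≤ n ∧ n ≤ N) ∧ Adm (term s α c n) ∧ Q (term s α c n)}

open Classical in
/-- For every sequence of signs `σ` there are `n_0 < n_1 < ⋯` such that the numbers `d_i = σ_i ⌊α n_i ^ c⌋` are
different and not in `S` and all the sets `S ∪ {d_0, …, d_{m-1}}` are good and satisfy `AllLayers`. -/
def SparseChains (α c : ℝ) (S : Finset ℤ) : Prop := ∀ σ : ℕ → ℤ, (∀ i, σ i = 1 ∨ σ i = -1) →
  ∃ n : ℕ → ℕ, StrictMono n ∧ Function.Injective (fun i => term (σ i) α c (n i)) ∧
    (∀ i, term (σ i) α c (n i) ∉ S) ∧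
    ∀ m, Good (S ∪ (Finset.range m).image (fun i => term (σ i) α c (n i))) ∧
      AllLayers (S ∪ (Finset.range m).image (fun i => term (σ i) α c (n i)))

/-- **Main theorem.** Let `c > 1`. There is a set `E` of real numbers of Hausdorff dimension smaller than one such
that for all real `α > 0` outside `E`, with `D_n = s ⌊α n ^ c⌋`, `s = ± 1`:
(1) at least `b N (log N)^(-3/4)` of the `n ≤ N` have `D_n` in the class, for some `b > 0` and all large `N`;
(2) for every good set `S` the proportion of the `n` for which `S ∪ {D_n}` is a good set with `#S + 1` elements,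
among the `n ≤ N` with `D_n` in the class, tends to `cc ^ (2 ^ #S)`;
(3) every good set `S` is the beginning of infinite chains of good sets with new elements
`σ_i ⌊α n_i ^ c⌋`, `n_0 < n_1 < ⋯`, for any prescribed signs `σ_i`. -/
theorem result (c : ℝ) (hc : 1 < c) :
    ∃ E : Set ℝ, dimH E < 1 ∧ ∀ α : ℝ, 0 < α → α ∉ E →
      (∀ s : ℤ, (s = 1 ∨ s = -1) →
        (∃ b : ℝ, 0 < b ∧ ∃ N₀ : ℕ, ∀ N : ℕ, N₀ ≤ N →
          b * N * (Real.log N) ^ (-(3 / 4) : ℝ) ≤ count s α c (fun _ => True) N) ∧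
        ∀ S : Finset ℤ, Good S → Tendsto (fun N : ℕ =>
          (count s α c (fun D => D ∉ S ∧ Good (insert D S)) N : ℝ) / count s α c (fun _ => True) N) atTop
            (𝓝 (cc ^ (2 ^ S.card)))) ∧
      (0.4194 < cc ∧ cc < 0.4195) ∧
      Good ∅ ∧ ∀ S : Finset ℤ, Good S → SparseChains α c S := by
  classical
  obtain ⟨h1, ⟨h0, -⟩, h2, h3, -⟩ := LayersMultiquadraticLaw.result
  obtain ⟨E, hE, h⟩ := Pool.Agent.V1110.SpA.ratio_int c hc (ι := Finset ℤ)
    (fun S D => Adm D ∧ (D ∉ S ∧ Good (insert D S))) (fun _ D => Adm D ∧ True)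
  have key : ∀ α : ℝ, 0 < α → α ∉ E → ∀ s : ℤ, (s = 1 ∨ s = -1) → ∀ S : Finset ℤ, Good S →
      Tendsto (fun N : ℕ =>
          (count s α c (fun D => D ∉ S ∧ Good (insert D S)) N : ℝ) / count s α c (fun _ => True) N) atTop
            (𝓝 (cc ^ (2 ^ S.card))) ∧
      ∃ b : ℝ, 0 < b ∧ ∃ N₀ : ℕ, ∀ N : ℕ, N₀ ≤ N →
          b * N * (Real.log N) ^ (-(3 / 4) : ℝ) ≤ count s α c (fun _ => True) N := by
    intro α hα hαE s hs S hS
    obtain ⟨⟨b, X₀, hb, hlow⟩, hp⟩ := h2 s hs
    have e : ∀ (Q : ℤ → Prop) (X : ℕ), LayersMultiquadraticLaw.count (fun D => Adm D ∧ 0 < s * D ∧ Q D) X =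
        Nat.card {D : ℤ // |D| ≤ X ∧ 0 < s * D ∧ (Adm D ∧ Q D)} := by
      intro Q X
      unfold LayersMultiquadraticLaw.count
      exact Nat.card_congr (Equiv.subtypeEquivRight fun D => by tauto)
    have e' : ∀ X : ℕ, LayersMultiquadraticLaw.count (fun D => Adm D ∧ 0 < s * D) X =
        Nat.card {D : ℤ // |D| ≤ X ∧ 0 < s * D ∧ (Adm D ∧ True)} := by
      intro X
      unfold LayersMultiquadraticLaw.count
      exact Nat.card_congr (Equiv.subtypeEquivRight fun D => by tauto)
    have hp' := hp S hS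
    unfold LayersMultiquadraticLaw.Proportion at hp'
    simp only [e, e'] at hp' hlow
    obtain ⟨h5, b', hb', N₀, h6⟩ := h α hα hαE S s hs (cc ^ (2 ^ S.card)) b (3 / 4) hb (by norm_num)
      ⟨X₀, hlow⟩ hp'
    exact ⟨h5, b', hb', N₀, h6⟩
  refine ⟨E, hE, fun α hα hαE => ⟨fun s hs => ⟨(key α hα hαE s hs ∅ h0).2, fun S hS =>
    (key α hα hαE s hs S hS).1⟩, h3, h0, fun S hS σ hσ => ?_⟩⟩
  have hc0 : 0 < cc := by linarith [h3.1]
  obtain ⟨n, hn1, hn2, hn3, hn4⟩ := Pool.Agent.V1137.SpT.chain (Good := Good) (fun s n => term s α c n)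
    (fun s hs U hU M => by
      obtain ⟨h5, b', hb', N₀, h6⟩ := key α hα hαE s hs U hU
      obtain ⟨n, hn, -, hn1, hn2⟩ := Pool.Agent.V1137.SpT.infinitely
        (fun n => Adm (term s α c n) ∧ (term s α c n ∉ U ∧ Good (insert (term s α c n) U)))
        hb' (by norm_num) (by norm_num) (pow_pos hc0 _) h6 h5 M
      exact ⟨n, hn, hn1, hn2⟩) hS σ hσ
  refine ⟨n, hn1, hn2, hn3, fun m => ?_⟩
  have h7 := hn4 m
  have h8 : Good (S ∪ (Finset.range m).image (fun i => term (σ i) α c (n i))) := by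
    convert h7
  exact ⟨h8, h1 _ h8⟩

end Pool.Agent.Results.MP_f50388_nt.SparseTowers
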